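import Mathlib

set_option autoImplicit false

/-!
# Voronoi regions of points on a twisted curve
-/

namespace Pool.Agent.Results.MP_5b0acc_co.TwistedCurve

open MeasureTheory Finset
open scoped RealInnerProductSpace NNReal ENNReal

/-- three-dimensional Euclidean space -/
abbrev E3 := EuclideanSpace ℝ (Fin 3)

/-- A curve is the image of a continuous injective map from an interval (with nonempty interior) into
`ℝ³`. -/
def IsCurve (C : Set E3) : Prop :=
  ∃ (I : Set ℝ) (f : ℝ → E3), I.OrdConnected ∧ (interior I).Nonempty ∧ ContinuousOn f I ∧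
    Set.InjOn f I ∧ C = f '' I

/-- No four distinct points of `C` lie in a common plane `{x | ⟪a, x⟫ = b}`, `a ≠ 0`. -/
def IsTwisted (C : Set E3) : Prop :=
  ∀ (a : E3) (b : ℝ), a ≠ 0 → ¬ ∃ p : Fin 4 → E3, Function.Injective p ∧
    ∀ i, p i ∈ C ∧ ⟪a, p i⟫ = b

/-- The (open) Voronoi region of `x` with respect to `S`. -/
def voronoi (S : Set E3) (x : E3) : Set E3 := {y | ∀ z ∈ S \ {x}, dist y x < dist y z}

/-- Among five points of `ℝ³` there are three, `x, x', z`, such that every linear functional that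
is maximal (among the five points) at both `x` and `x'` is also maximal at `z`. -/
lemma five (t : Finset E3) (ht : t.card = 5) : ∃ x ∈ t, ∃ x' ∈ t, ∃ z ∈ t, x ≠ x' ∧ x ≠ z ∧
    x' ≠ z ∧ ∀ y : E3, ⟪y, x⟫ = ⟪y, x'⟫ → (∀ w ∈ t, ⟪y, w⟫ ≤ ⟪y, x⟫) → ⟪y, z⟫ = ⟪y, x⟫ := by
  classical
  have main : ∀ f : E3 → ℝ, ∑ e ∈ t, f e • e = 0 → ∑ e ∈ t, f e = 0 → (∃ x ∈ t, f x ≠ 0) →
      (t.filter fun e => 0 < f e).card ≤ 2 →
      ∃ x ∈ t, ∃ x' ∈ t, ∃ z ∈ t, x ≠ x' ∧ x ≠ z ∧
      x' ≠ z ∧ ∀ y : E3, ⟪y, x⟫ = ⟪y, x'⟫ → (∀ w ∈ t, ⟪y, w⟫ ≤ ⟪y, x⟫) → ⟪y, z⟫ = ⟪y, x⟫ := by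
    intro f hf1 hf2 hf3 hcard
    obtain ⟨e0, he0, hfe0⟩ := hf3
    obtain ⟨i, hi, hfi⟩ : ∃ i ∈ t, 0 < f i := by
      by_contra h
      push Not at h
      have := (Finset.sum_eq_zero_iff_of_nonpos h).1 hf2 e0 he0
      exact hfe0 this
    obtain ⟨k, hk, hfk⟩ : ∃ k ∈ t, f k < 0 := by
      by_contra h
      push Not at h
      have := (Finset.sum_eq_zero_iff_of_nonneg h).1 hf2 e0 he0
      exact hfe0 this
    have hik : i ≠ k := by rintro rfl; linarith
    -- choose j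
    obtain ⟨j, hj, hij, hjk, hP⟩ : ∃ j ∈ t, i ≠ j ∧ j ≠ k ∧
        ∀ e ∈ t, 0 < f e → e = i ∨ e = j := by
      by_cases h : ∃ j ∈ t, j ≠ i ∧ 0 < f j
      · obtain ⟨j, hj, hji, hfj⟩ := h
        refine ⟨j, hj, hji.symm, ?_, ?_⟩
        · rintro rfl; linarith
        · intro e he hfe
          by_contra hcon
          push Not at hcon
          have h3 : ({i, j, e} : Finset E3) ⊆ t.filter fun e => 0 < f e := by
            intro u hu
            simp only [Finset.mem_insert, Finset.mem_singleton] at hu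
            rcases hu with rfl | rfl | rfl <;> simp [*]
          have h4 := Finset.card_le_card h3
          rw [Finset.card_eq_three.2 ⟨i, j, e, hji.symm, hcon.1.symm, hcon.2.symm, rfl⟩] at h4
          omega
      · push Not at h
        have h5 : 0 < ((t.erase i).erase k).card := by
          rw [Finset.card_erase_of_mem (Finset.mem_erase.2 ⟨hik.symm, hk⟩),
            Finset.card_erase_of_mem hi]
          omega
        obtain ⟨j, hj⟩ := Finset.card_pos.1 h5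
        rw [Finset.mem_erase, Finset.mem_erase] at hj
        refine ⟨j, hj.2.2, hj.2.1.symm, hj.1, fun e he hfe => ?_⟩
        by_contra hcon
        push Not at hcon
        exact absurd (h e he hcon.1) (not_le.2 hfe)
    refine ⟨i, hi, j, hj, k, hk, hij, hik, hjk, fun y hy hmax => ?_⟩
    have h1 : ∑ e ∈ t, f e * (⟪y, e⟫ - ⟪y, i⟫) = 0 := by
      have h2 : ∑ e ∈ t, f e * ⟪y, e⟫ = 0 := by
        have := congrArg (fun v => ⟪y, v⟫) hf1
        simpa [inner_sum, inner_smul_right] using this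
      simp only [mul_sub, Finset.sum_sub_distrib, ← Finset.sum_mul, h2, hf2]
      ring
    have h2 : ∀ e ∈ t, 0 ≤ f e * (⟪y, e⟫ - ⟪y, i⟫) := by
      intro e he
      rcases le_or_gt (f e) 0 with h | h
      · exact mul_nonneg_of_nonpos_of_nonpos h (by linarith [hmax e he])
      · rcases hP e he h with rfl | rfl
        · simp
        · rw [hy]; simp
    have h3 := (Finset.sum_eq_zero_iff_of_nonneg h2).1 h1 k hk
    rcases mul_eq_zero.1 h3 with h | h
    · linarith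
    · linarith
  obtain ⟨f, hf1, hf2, hf3⟩ := Module.exists_nontrivial_relation_sum_zero_of_finrank_succ_lt_card
    (R := ℝ) (t := t) (by rw [ht]; simp)
  by_cases hc : (t.filter fun e => 0 < f e).card ≤ 2
  · exact main f hf1 hf2 hf3 hc
  · refine main (fun e => - f e) ?_ ?_ ?_ ?_
    · simp only [neg_smul, Finset.sum_neg_distrib, hf1, neg_zero]
    · simp only [Finset.sum_neg_distrib, hf2, neg_zero]
    · obtain ⟨x, hx, hx'⟩ := hf3
      exact ⟨x, hx, neg_ne_zero.2 hx'⟩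
    · have hdisj : Disjoint (t.filter fun e => 0 < f e) (t.filter fun e => 0 < - f e) := by
        rw [Finset.disjoint_left]
        intro e he he'
        have h1 := (Finset.mem_filter.1 he).2
        have h2 := (Finset.mem_filter.1 he').2
        linarith
      have h1 := Finset.card_union_of_disjoint hdisj
      have h2 : ((t.filter fun e => 0 < f e) ∪ (t.filter fun e => 0 < - f e)).card ≤ 5 := by
        rw [← ht]
        exact Finset.card_le_card (Finset.union_subset (Finset.filter_subset _ _)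
          (Finset.filter_subset _ _))
      omega

/-- The set of `y` with `⟪y, x⟫ = ⟪y, x'⟫ = ⟪y, z⟫` has zero area if `x, x', z` are distinct points
of a sphere. -/
lemma line_null {x x' z : E3} (hx : ‖x‖ = 1) (hx' : ‖x'‖ = 1) (hz : ‖z‖ = 1) (h1 : x ≠ x')
    (h2 : x ≠ z) (h3 : x' ≠ z) :
    μH[2] {y : E3 | ⟪y, x⟫ = ⟪y, x'⟫ ∧ ⟪y, z⟫ = ⟪y, x⟫} = 0 := by
  have hcos : EuclideanGeometry.Cospherical ({x, x', z} : Set E3) := by
    refine ⟨0, 1, ?_⟩
    rintro p (rfl | rfl | rfl) <;> simpa [dist_eq_norm] using by assumption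
  have hai := hcos.affineIndependent_of_ne h1 h2 h3
  have hrank : Module.finrank ℝ (vectorSpan ℝ (Set.range ![x, x', z])) = 2 :=
    hai.finrank_vectorSpan (by simp)
  set W : Submodule ℝ E3 := (vectorSpan ℝ (Set.range ![x, x', z]))ᗮ with hW
  have hWrank : Module.finrank ℝ W = 1 := by
    have := Submodule.finrank_add_finrank_orthogonal (vectorSpan ℝ (Set.range ![x, x', z]))
    rw [hrank, finrank_euclideanSpace_fin] at this
    exact Nat.add_left_cancel (this.trans (by norm_num : 3 = 2 + 1))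
  have hsub : {y : E3 | ⟪y, x⟫ = ⟪y, x'⟫ ∧ ⟪y, z⟫ = ⟪y, x⟫} ⊆ (W : Set E3) := by
    rintro y ⟨e1, e2⟩
    rw [SetLike.mem_coe, hW, Submodule.mem_orthogonal']
    intro u hu
    rw [vectorSpan_def] at hu
    refine Submodule.span_induction (p := fun u _ => ⟪y, u⟫ = 0) ?_ ?_ ?_ ?_ hu
    · rintro _ ⟨p, ⟨i, rfl⟩, q, ⟨j, rfl⟩, rfl⟩
      simp only [vsub_eq_sub]
      rw [inner_sub_right]
      fin_cases i <;> fin_cases j <;> simp <;> linarith
    · simp
    · intro a b _ _ ha hb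
      rw [inner_add_right, ha, hb, add_zero]
    · intro c a _ ha
      rw [inner_smul_right, ha, mul_zero]
  have hdim : dimH (W : Set E3) = 1 := by
    have h4 : dimH (Set.univ : Set W) = Module.finrank ℝ W := Real.dimH_univ_eq_finrank W
    have h5 := (isometry_subtype_coe (s := (W : Set E3))).dimH_image (Set.univ)
    rw [Set.image_univ, Subtype.range_coe] at h5
    rw [h5]
    refine h4.trans ?_
    rw [hWrank]
    simp
  have hlt : dimH {y : E3 | ⟪y, x⟫ = ⟪y, x'⟫ ∧ ⟪y, z⟫ = ⟪y, x⟫} < ((2 : ℝ≥0) : ℝ≥0∞) := by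
    refine (dimH_mono hsub).trans_lt ?_
    rw [hdim]
    norm_num
  have := hausdorffMeasure_of_dimH_lt hlt
  simpa using this

/-- For every set of at least five points of the unit sphere, two of the closed Voronoi regions
share only a set of zero area. -/
lemma sphere_case (S : Set E3) (hS : ∀ x ∈ S, ‖x‖ = 1) (h5 : 5 ≤ S.encard) :
    ∃ x ∈ S, ∃ x' ∈ S, x ≠ x' ∧
      μH[2] (closure (voronoi S x) ∩ closure (voronoi S x')) = 0 := by
  obtain ⟨t', ht'S, ht'c⟩ := Set.exists_subset_encard_eq h5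
  have hfin : t'.Finite := Set.finite_of_encard_eq_coe ht'c
  obtain ⟨t, rfl⟩ : ∃ t : Finset E3, (t : Set E3) = t' := ⟨hfin.toFinset, by simp⟩
  have htc : t.card = 5 := by
    rw [Set.encard_coe_eq_coe_finsetCard] at ht'c
    exact_mod_cast ht'c
  obtain ⟨x, hx, x', hx', z, hz, h1, h2, h3, h4⟩ := five t htc
  refine ⟨x, ht'S hx, x', ht'S hx', h1, ?_⟩
  refine measure_mono_null ?_ (line_null (hS x (ht'S hx)) (hS x' (ht'S hx')) (hS z (ht'S hz))
    h1 h2 h3)
  have hcl : ∀ v ∈ S, closure (voronoi S v) ⊆ {y | ∀ w ∈ S, ⟪y, w⟫ ≤ ⟪y, v⟫} := by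
    intro v hv
    apply closure_minimal
    · intro y hy w hw
      rcases eq_or_ne w v with rfl | hne
      · exact le_rfl
      · have h6 := hy w ⟨hw, hne⟩
        rw [dist_eq_norm, dist_eq_norm] at h6
        have h7 : ‖y - v‖ ^ 2 < ‖y - w‖ ^ 2 := pow_lt_pow_left₀ h6 (norm_nonneg _) (by norm_num)
        rw [norm_sub_sq_real, norm_sub_sq_real, hS v hv, hS w hw] at h7
        linarith
    · have : {y : E3 | ∀ w ∈ S, ⟪y, w⟫ ≤ ⟪y, v⟫} = ⋂ w ∈ S, {y | ⟪y, w⟫ ≤ ⟪y, v⟫} := by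
        ext y; simp
      rw [this]
      exact isClosed_biInter fun w _ => isClosed_le (by fun_prop) (by fun_prop)
  rintro y ⟨hy1, hy2⟩
  have e1 := hcl x (ht'S hx) hy1
  have e2 := hcl x' (ht'S hx') hy2
  have e3 : ⟪y, x⟫ = ⟪y, x'⟫ := le_antisymm (e2 x (ht'S hx)) (e1 x' (ht'S hx'))
  exact ⟨e3, h4 y e3 fun w hw => e1 w (ht'S hw)⟩

/-- the curve -/
noncomputable def γ (t : ℝ) : E3 :=
  (1 + t ^ 2 + t ^ 4)⁻¹ • !₂[2 * t, 2 * t ^ 2, t ^ 2 + t ^ 4 - 1]

lemma norm_γ (t : ℝ) : ‖γ t‖ = 1 := by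
  have hN : 0 < 1 + t ^ 2 + t ^ 4 := by positivity
  unfold γ
  rw [norm_smul, EuclideanSpace.norm_eq, Real.norm_eq_abs, abs_inv, abs_of_pos hN]
  have : ∑ i : Fin 3, ‖(!₂[2 * t, 2 * t ^ 2, t ^ 2 + t ^ 4 - 1] : E3) i‖ ^ 2
      = (1 + t ^ 2 + t ^ 4) ^ 2 := by
    simp [Fin.sum_univ_three]
    ring
  rw [this, Real.sqrt_sq hN.le]
  exact inv_mul_cancel₀ hN.ne'

lemma quartic {A B C D t1 t2 t3 t4 : ℝ} (p1 : 0 < t1) (p2 : 0 < t2) (p3 : 0 < t3) (p4 : 0 < t4)
    (n12 : t1 ≠ t2) (n13 : t1 ≠ t3) (n14 : t1 ≠ t4) (n23 : t2 ≠ t3) (n24 : t2 ≠ t4)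
    (n34 : t3 ≠ t4)
    (h1 : A * t1 ^ 4 + B * t1 ^ 2 + C * t1 + D = 0) (h2 : A * t2 ^ 4 + B * t2 ^ 2 + C * t2 + D = 0)
    (h3 : A * t3 ^ 4 + B * t3 ^ 2 + C * t3 + D = 0)
    (h4 : A * t4 ^ 4 + B * t4 ^ 2 + C * t4 + D = 0) : A = 0 ∧ B = 0 ∧ C = 0 ∧ D = 0 := by
  have d : ∀ s, t1 ≠ s → A * s ^ 4 + B * s ^ 2 + C * s + D = 0 →
      A * (t1 ^ 3 + t1 ^ 2 * s + t1 * s ^ 2 + s ^ 3) + B * (t1 + s) + C = 0 := by
    intro s hs h
    have h5 : (t1 - s) * (A * (t1 ^ 3 + t1 ^ 2 * s + t1 * s ^ 2 + s ^ 3) + B * (t1 + s) + C) = 0 := by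
      linear_combination h1 - h
    exact (mul_eq_zero.1 h5).resolve_left (sub_ne_zero.2 hs)
  have f2 := d t2 n12 h2
  have f3 := d t3 n13 h3
  have f4 := d t4 n14 h4
  have g3 : A * (t1 ^ 2 + t1 * (t2 + t3) + t2 ^ 2 + t2 * t3 + t3 ^ 2) + B = 0 := by
    have h5 : (t2 - t3) * (A * (t1 ^ 2 + t1 * (t2 + t3) + t2 ^ 2 + t2 * t3 + t3 ^ 2) + B) = 0 := by
      linear_combination f2 - f3
    exact (mul_eq_zero.1 h5).resolve_left (sub_ne_zero.2 n23)
  have g4 : A * (t1 ^ 2 + t1 * (t2 + t4) + t2 ^ 2 + t2 * t4 + t4 ^ 2) + B = 0 := by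
    have h5 : (t2 - t4) * (A * (t1 ^ 2 + t1 * (t2 + t4) + t2 ^ 2 + t2 * t4 + t4 ^ 2) + B) = 0 := by
      linear_combination f2 - f4
    exact (mul_eq_zero.1 h5).resolve_left (sub_ne_zero.2 n24)
  have hA : A = 0 := by
    have h5 : (t3 - t4) * (A * (t1 + t2 + t3 + t4)) = 0 := by
      linear_combination g3 - g4
    have h6 := (mul_eq_zero.1 h5).resolve_left (sub_ne_zero.2 n34)
    exact (mul_eq_zero.1 h6).resolve_right (by positivity)
  subst hA
  have hB : B = 0 := by linarith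
  subst hB
  have hC : C = 0 := by linarith
  subst hC
  exact ⟨rfl, rfl, rfl, by linarith⟩

lemma inner_γ (a : E3) (b t : ℝ) (h : ⟪a, γ t⟫ = b) :
    (a 2 - b) * t ^ 4 + (2 * a 1 + a 2 - b) * t ^ 2 + (2 * a 0) * t + (- a 2 - b) = 0 := by
  have hN : 0 < 1 + t ^ 2 + t ^ 4 := by positivity
  have h1 : ⟪a, (!₂[2 * t, 2 * t ^ 2, t ^ 2 + t ^ 4 - 1] : E3)⟫ =
      a 0 * (2 * t) + a 1 * (2 * t ^ 2) + a 2 * (t ^ 2 + t ^ 4 - 1) := by
    rw [PiLp.inner_apply]
    simp [Fin.sum_univ_three]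
    ring
  rw [γ, inner_smul_right, h1, inv_mul_eq_iff_eq_mul₀ hN.ne'] at h
  linear_combination h

lemma twisted : IsTwisted (γ '' Set.Ioi 0) := by
  rintro a b ha ⟨p, hp, hpi⟩
  choose t ht htp using fun i => (hpi i).1
  have hne : ∀ i j, i ≠ j → t i ≠ t j := by
    intro i j hij h
    apply hij
    apply hp
    rw [← htp i, ← htp j, h]
  have heq : ∀ i, (a 2 - b) * t i ^ 4 + (2 * a 1 + a 2 - b) * t i ^ 2 + (2 * a 0) * t i +
      (- a 2 - b) = 0 := by
    intro i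
    apply inner_γ
    rw [htp i]
    exact (hpi i).2
  obtain ⟨h1, h2, h3, h4⟩ := quartic (ht 0) (ht 1) (ht 2) (ht 3) (hne 0 1 (by decide))
    (hne 0 2 (by decide)) (hne 0 3 (by decide)) (hne 1 2 (by decide)) (hne 1 3 (by decide))
    (hne 2 3 (by decide)) (heq 0) (heq 1) (heq 2) (heq 3)
  apply ha
  ext i
  fin_cases i <;> simp <;> linarith

lemma continuous_γ : Continuous γ := by
  unfold γ
  have : Continuous fun t : ℝ => (1 + t ^ 2 + t ^ 4)⁻¹ := by
    apply Continuous.inv₀ (by fun_prop)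
    intro t
    positivity
  refine this.smul ?_
  refine (PiLp.continuous_toLp 2 _).comp ?_
  refine continuous_pi fun i => ?_
  fin_cases i <;> simp <;> fun_prop

lemma inj_γ : Set.InjOn γ (Set.Ioi 0) := by
  intro s hs t ht h
  have hs' : (0 : ℝ) < s := hs
  have ht' : (0 : ℝ) < t := ht
  have hN : 0 < 1 + t ^ 2 + t ^ 4 := by positivity
  have hM : 0 < 1 + s ^ 2 + s ^ 4 := by positivity
  have h0 := congrArg (fun v : E3 => v 0) h
  have h1 := congrArg (fun v : E3 => v 1) h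
  simp [γ] at h0 h1
  field_simp at h0 h1
  have h2 : ((1 + s ^ 2 + s ^ 4) * t) * (t - s) = 0 := by
    linear_combination s * h0 - h1
  have h3 := (mul_eq_zero.1 h2).resolve_left (by positivity)
  linarith

/-- There is a twisted curve `C` such that for every subset `S` of `C` with at least five points
(in particular for every infinite one) two of the closed Voronoi regions of the points of `S` meet
in a set of zero area (two-dimensional Hausdorff measure). -/
theorem result : ∃ C : Set E3, IsCurve C ∧ IsTwisted C ∧ ∀ S ⊆ C, 5 ≤ S.encard →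
    ∃ x ∈ S, ∃ x' ∈ S, x ≠ x' ∧
      μH[2] (closure (voronoi S x) ∩ closure (voronoi S x')) = 0 := by
  refine ⟨γ '' Set.Ioi 0, ⟨Set.Ioi 0, γ, Set.ordConnected_Ioi,
    by rw [interior_Ioi]; exact Set.nonempty_Ioi, continuous_γ.continuousOn, inj_γ,
    rfl⟩, twisted, fun S hS h5 => sphere_case S ?_ h5⟩
  intro x hx
  obtain ⟨t, -, rfl⟩ := hS hx
  exact norm_γ t

end Pool.Agent.Results.MP_5b0acc_co.TwistedCurve
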